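import Pool.Agent.X49.Gallai

/-!
# MP_007251: the minimum size of a maximum odd induced subgraph of a cograph

We determine `m(n) = 2 ⌈n / 6⌉` for all `n ≥ 2`.
-/

namespace Pool.Agent.Results.MP_007251_co.OneThird

open SimpleGraph Pool.Agent.X49

/-- The subgraph of `G` induced by `S` is odd: every vertex of it has odd degree in it. -/
def OddInduced {V : Type} (G : SimpleGraph V) (S : Set V) : Prop :=
  ∀ v : S, Odd ((G.induce S).neighborSet v).ncard

/-- The largest number of vertices of an odd induced subgraph. -/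
noncomputable def mos {V : Type} (G : SimpleGraph V) : ℕ :=
  sSup {k | ∃ S : Set V, OddInduced G S ∧ S.ncard = k}

/-- `G` has no induced path on four vertices. -/
def IsCograph {V : Type} (G : SimpleGraph V) : Prop := ¬ (pathGraph 4) ⊴ G

/-- `G` has no isolated vertex. -/
def NoIsolated {V : Type} (G : SimpleGraph V) : Prop := ∀ v, ∃ w, G.Adj v w

/-- The minimum of `mos` over all cographs on `n` vertices without isolated vertices. -/
noncomputable def m (n : ℕ) : ℕ :=
  sInf {k | ∃ G : SimpleGraph (Fin n), IsCograph G ∧ NoIsolated G ∧ mos G = k}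

theorem oddInduced_iff {V : Type} [Fintype V] [DecidableEq V] (G : SimpleGraph V)
    [DecidableRel G.Adj] (S : Finset V) : OddInduced G (S : Set V) ↔ OddOn G S := by
  have h : ∀ v : (S : Set V), ((G.induce (S : Set V)).neighborSet v).ncard = dS G S v := by
    intro v
    unfold dS
    rw [← Set.ncard_coe_finset, ← Set.ncard_image_of_injective _ Subtype.val_injective]
    congr 1
    ext u
    simp only [Set.mem_image, mem_neighborSet, comap_adj, Function.Embedding.subtype_apply,
      Finset.coe_filter, Subtype.exists, exists_and_right, exists_eq_right, Set.mem_ofPred_eq]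
    constructor
    · rintro ⟨h1, h2⟩
      exact ⟨h1, h2⟩
    · rintro ⟨h1, h2⟩
      exact ⟨h1, h2⟩
  constructor
  · intro h1 v hv
    rw [← h ⟨v, hv⟩]
    exact h1 ⟨v, hv⟩
  · intro h1 v
    rw [h v]
    exact h1 v v.2

theorem bddAbove {V : Type} [Finite V] (G : SimpleGraph V) :
    BddAbove {k | ∃ S : Set V, OddInduced G S ∧ S.ncard = k} := by
  refine ⟨Nat.card V, ?_⟩
  rintro k ⟨S, -, rfl⟩
  exact Set.ncard_le_card S

theorem lower (n : ℕ) (G : SimpleGraph (Fin n)) (hG : IsCograph G) (hiso : NoIsolated G) :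
    2 * ((n + 5) / 6) ≤ mos G := by
  classical
  obtain ⟨S, -, hS, hc⟩ := third_odd (G := G) (by
    intro a b c d h1 h2 h3 h4 h5 h6 n1 n2 n3
    apply hG
    have e1 := h1.ne
    have e2 := h2.ne
    have e3 := h3.ne
    refine ⟨⟨⟨![a, b, c, d], ?_⟩, ?_⟩⟩
    · intro i j hij
      fin_cases i <;> fin_cases j <;> simp_all
    · intro i j
      have h4' : ¬ G.Adj c a := fun h => h4 h.symm
      have h5' : ¬ G.Adj d b := fun h => h5 h.symm
      have h6' : ¬ G.Adj d a := fun h => h6 h.symm
      have key : ∀ i j : Fin 4, G.Adj (![a, b, c, d] i) (![a, b, c, d] j) ↔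
          (pathGraph 4).Adj i j := by
        intro i j
        fin_cases i <;> fin_cases j <;>
          simp [pathGraph_adj, h1, h2, h3, h4, h5, h6, h4', h5', h6', h1.symm, h2.symm, h3.symm]
      exact key i j)
    (Finset.univ : Finset (Fin n)).card Finset.univ rfl
    (fun v _ => by
      obtain ⟨w, hw⟩ := hiso v
      exact ⟨w, Finset.mem_univ w, hw⟩)
  have he := hS.even_card
  have h1 : S.card ≤ mos G := by
    apply le_csSup (bddAbove G)
    exact ⟨(S : Set (Fin n)), (oddInduced_iff G S).mpr hS, Set.ncard_coe_finset S⟩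
  rw [Finset.card_univ, Fintype.card_fin] at hc
  obtain ⟨k, hk⟩ := he
  omega

/-- The extremal graph: `k` components, each an induced subgraph of `K_{2,2,2}`. -/
def gr (n k : ℕ) : SimpleGraph (Fin n) where
  Adj i j := i.val % k = j.val % k ∧ (i.val / k) % 3 ≠ (j.val / k) % 3
  symm := ⟨fun _ _ h => ⟨h.1.symm, h.2.symm⟩⟩
  loopless := ⟨fun _ h => h.2 rfl⟩

instance (n k : ℕ) : DecidableRel (gr n k).Adj := fun i j =>
  inferInstanceAs (Decidable (i.val % k = j.val % k ∧ (i.val / k) % 3 ≠ (j.val / k) % 3))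

theorem gr_adj {n k : ℕ} {i j : Fin n} :
    (gr n k).Adj i j ↔ i.val % k = j.val % k ∧ (i.val / k) % 3 ≠ (j.val / k) % 3 := Iff.rfl

theorem gr_cograph (n k : ℕ) : IsCograph (gr n k) := by
  rintro ⟨φ⟩
  have h01 : (gr n k).Adj (φ 0) (φ 1) := φ.map_adj_iff.mpr (by simp [pathGraph_adj])
  have h12 : (gr n k).Adj (φ 1) (φ 2) := φ.map_adj_iff.mpr (by simp [pathGraph_adj])
  have h23 : (gr n k).Adj (φ 2) (φ 3) := φ.map_adj_iff.mpr (by simp [pathGraph_adj])
  have h02 : ¬ (gr n k).Adj (φ 0) (φ 2) := by
    rw [φ.map_adj_iff]; simp [pathGraph_adj]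
  have h13 : ¬ (gr n k).Adj (φ 1) (φ 3) := by
    rw [φ.map_adj_iff]; simp [pathGraph_adj]
  have h03 : ¬ (gr n k).Adj (φ 0) (φ 3) := by
    rw [φ.map_adj_iff]; simp [pathGraph_adj]
  rw [gr_adj] at h01 h12 h23 h02 h13 h03
  omega

theorem gr_noIsolated (n k : ℕ) (hk : 1 ≤ k) (hn : 2 * k ≤ n) : NoIsolated (gr n k) := by
  intro i
  by_cases h : i.val < k
  · refine ⟨⟨i.val + k, by omega⟩, ?_⟩
    rw [gr_adj]
    simp only
    rw [Nat.add_mod_right, Nat.add_div_right _ (by omega), Nat.div_eq_of_lt h]
    simp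
  · refine ⟨⟨i.val - k, by omega⟩, ?_⟩
    rw [gr_adj]
    simp only
    obtain ⟨j, hj⟩ : ∃ j, i.val = j + k := ⟨i.val - k, by omega⟩
    rw [hj, Nat.add_sub_cancel, Nat.add_mod_right, Nat.add_div_right _ (by omega)]
    omega

theorem gr_upper (n k : ℕ) (hk : 1 ≤ k) (hn : n ≤ 6 * k) {S : Finset (Fin n)}
    (hS : OddOn (gr n k) S) : S.card ≤ 2 * k := by
  classical
  -- every component contains at most two vertices of `S`
  have hT : ∀ j : ℕ, (S.filter fun i => i.val % k = j).card ≤ 2 := by
    intro j
    let T : ℕ → Finset (Fin n) := fun r =>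
      S.filter fun i => i.val % k = j ∧ (i.val / k) % 3 = r
    have hTr : ∀ r, r < 3 → (T r).card ≤ 2 := by
      intro r hr
      have h1 : (T r).card ≤ ({r, r + 3} : Finset ℕ).card := by
        apply Finset.card_le_card_of_injOn (fun i => i.val / k)
        · intro i hi
          have hi' := (Finset.mem_filter.mp (Finset.mem_coe.mp hi)).2.2
          have h2 : i.val / k < 6 := by
            rw [Nat.div_lt_iff_lt_mul (by omega)]
            have := i.isLt
            omega
          simp only [Finset.coe_insert, Finset.coe_singleton, Set.mem_insert_iff,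
            Set.mem_singleton_iff]
          generalize i.val / k = q at *
          omega
        · intro i hi i' hi' h
          have h1 := (Finset.mem_filter.mp (Finset.mem_coe.mp hi)).2.1
          have h2 := (Finset.mem_filter.mp (Finset.mem_coe.mp hi')).2.1
          simp only at h
          apply Fin.ext
          rw [← Nat.div_add_mod i.val k, ← Nat.div_add_mod i'.val k, h, h1, h2]
      exact h1.trans (Finset.card_le_two)
    have hsum : (S.filter fun i => i.val % k = j).card = (T 0).card + (T 1).card + (T 2).card := by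
      have h1 : S.filter (fun i => i.val % k = j) = (T 0 ∪ T 1) ∪ T 2 := by
        ext i
        simp only [T, Finset.mem_union, Finset.mem_filter]
        have : (i.val / k) % 3 < 3 := Nat.mod_lt _ (by norm_num)
        constructor
        · rintro ⟨h2, h3⟩
          have : (i.val / k) % 3 = 0 ∨ (i.val / k) % 3 = 1 ∨ (i.val / k) % 3 = 2 := by omega
          tauto
        · tauto
      rw [h1, Finset.card_union_of_disjoint, Finset.card_union_of_disjoint]
      · rw [Finset.disjoint_left]
        intro i h2 h3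
        have h2' := (Finset.mem_filter.mp h2).2.2
        have h3' := (Finset.mem_filter.mp h3).2.2
        omega
      · rw [Finset.disjoint_left]
        intro i h2 h3
        have h3' := (Finset.mem_filter.mp h3).2.2
        rcases Finset.mem_union.mp h2 with h2 | h2
        · have h2' := (Finset.mem_filter.mp h2).2.2
          omega
        · have h2' := (Finset.mem_filter.mp h2).2.2
          omega
    -- degrees
    have hdeg : ∀ r, r < 3 → 0 < (T r).card →
        Odd ((T 0).card + (T 1).card + (T 2).card - (T r).card) := by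
      intro r hr hpos
      obtain ⟨v, hv⟩ := Finset.card_pos.mp hpos
      have hv' := Finset.mem_filter.mp hv
      have h1 := hS v hv'.1
      have h2 : dS (gr n k) S v + (T r).card = (T 0).card + (T 1).card + (T 2).card := by
        rw [← hsum]
        unfold dS
        rw [← Finset.card_union_of_disjoint]
        · congr 1
          ext i
          simp only [T, Finset.mem_union, Finset.mem_filter, gr_adj]
          rw [hv'.2.1, hv'.2.2]
          constructor
          · rintro (⟨h3, h4, h5⟩ | ⟨h3, h4, h5⟩)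
            · exact ⟨h3, h4.symm⟩
            · exact ⟨h3, h4⟩
          · rintro ⟨h3, h4⟩
            by_cases h5 : r = (i.val / k) % 3
            · exact Or.inr ⟨h3, h4, h5.symm⟩
            · exact Or.inl ⟨h3, h4.symm, h5⟩
        · rw [Finset.disjoint_left]
          intro i h3 h4
          have h3' := (Finset.mem_filter.mp h3).2
          have h4' := (Finset.mem_filter.mp h4).2
          rw [gr_adj, hv'.2.1, hv'.2.2] at h3'
          exact h3'.2 h4'.2.symm
      rw [← h2, Nat.add_sub_cancel]
      exact h1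
    rw [hsum]
    have a0 := hTr 0 (by norm_num)
    have a1 := hTr 1 (by norm_num)
    have a2 := hTr 2 (by norm_num)
    have b0 := hdeg 0 (by norm_num)
    have b1 := hdeg 1 (by norm_num)
    have b2 := hdeg 2 (by norm_num)
    rw [Nat.odd_iff] at b0 b1 b2
    omega
  have h1 := Finset.card_eq_sum_card_fiberwise (s := S) (t := Finset.range k)
    (f := fun i : Fin n => i.val % k) (fun i _ => by
      simp only [Finset.coe_range, Set.mem_Iio]
      exact Nat.mod_lt _ (by omega))
  rw [h1]
  refine (Finset.sum_le_sum fun j _ => hT j).trans ?_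
  rw [Finset.sum_const, Finset.card_range, smul_eq_mul, mul_comm]

theorem gr_mos (n k : ℕ) (hk : 1 ≤ k) (hn : n ≤ 6 * k) : mos (gr n k) ≤ 2 * k := by
  classical
  apply csSup_le'
  rintro _ ⟨S, hS, rfl⟩
  have h1 : S = ((Set.toFinite S).toFinset : Set (Fin n)) := (Set.Finite.coe_toFinset _).symm
  rw [h1] at hS ⊢
  rw [Set.ncard_coe_finset]
  exact gr_upper n k hk hn ((oddInduced_iff _ _).mp hS)

/-- **Answer to Q1.** `m(n) = 2 ⌈n / 6⌉` for all `n ≥ 2`. -/
theorem result : ∀ n : ℕ, 2 ≤ n → m n = 2 * ⌈(n : ℚ) / 6⌉₊ := by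
  intro n hn
  have hceil : ⌈(n : ℚ) / 6⌉₊ = (n + 5) / 6 := by
    rw [Nat.ceil_eq_iff (by omega)]
    obtain ⟨k, hk⟩ : ∃ k, k + 1 = (n + 5) / 6 := ⟨(n + 5) / 6 - 1, by omega⟩
    rw [← hk]
    have h1 : 6 * k < n := by omega
    have h2 : n ≤ 6 * (k + 1) := by omega
    have h1' : (6 : ℚ) * k < n := by exact_mod_cast h1
    have h2' : (n : ℚ) ≤ 6 * (k + 1) := by exact_mod_cast h2
    rw [Nat.add_sub_cancel]
    push_cast
    constructor <;> linarith
  rw [hceil]
  obtain ⟨k, hk⟩ : ∃ k, k = (n + 5) / 6 := ⟨_, rfl⟩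
  rw [← hk]
  have h1 : m n ≤ 2 * k := by
    refine le_trans (Nat.sInf_le ⟨gr n k, gr_cograph n k, gr_noIsolated n k (by omega) (by omega),
      rfl⟩) (gr_mos n k (by omega) (by omega))
  have hne : {k | ∃ G : SimpleGraph (Fin n), IsCograph G ∧ NoIsolated G ∧ mos G = k}.Nonempty :=
    ⟨_, gr n k, gr_cograph n k, gr_noIsolated n k (by omega) (by omega), rfl⟩
  obtain ⟨G, hG1, hG2, hG3⟩ := Nat.sInf_mem hne
  have h2 : 2 * k ≤ m n := by
    have := lower n G hG1 hG2
    rw [hG3, ← hk] at this
    exact this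
  omega

end Pool.Agent.Results.MP_007251_co.OneThird
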